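import Pool.Agent.W27.FB.Stm

/-!
# Bohr neighbourhoods of zero have positive lower Banach density
-/

set_option autoImplicit false

namespace Pool.Agent.W253.FN

/-- the cell of a number -/
noncomputable def cell (T : Finset ℝ) (q : ℕ) (k : ℕ) : T → Fin (q + 1) := fun θ =>
  ⟨⌊((q + 1 : ℕ) : ℝ) * Int.fract ((k : ℝ) * θ)⌋₊, by
    have h1 : ((q + 1 : ℕ) : ℝ) * Int.fract ((k : ℝ) * (θ : ℝ)) < ((q + 1 : ℕ) : ℝ) := by
      have h2 := Int.fract_lt_one ((k : ℝ) * (θ : ℝ))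
      have h3 : (0 : ℝ) < ((q + 1 : ℕ) : ℝ) := by positivity
      nlinarith
    exact (Nat.floor_lt (mul_nonneg (Nat.cast_nonneg _) (Int.fract_nonneg _))).2 h1⟩

theorem cell_close {T : Finset ℝ} {q : ℕ} {ρ : ℝ} (hq : 1 / ((q + 1 : ℕ) : ℝ) < ρ) {k t : ℕ}
    (htk : t ≤ k) (h : cell T q k = cell T q t) (θ : ℝ) (hθ : θ ∈ T) :
    |((k - t : ℕ) : ℝ) * θ - round (((k - t : ℕ) : ℝ) * θ)| < ρ := by
  have h1 : ⌊((q + 1 : ℕ) : ℝ) * Int.fract ((k : ℝ) * θ)⌋₊ =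
      ⌊((q + 1 : ℕ) : ℝ) * Int.fract ((t : ℝ) * θ)⌋₊ := by
    have h2 := congrFun h ⟨θ, hθ⟩
    exact congrArg Fin.val h2
  have hq0 : (0 : ℝ) < ((q + 1 : ℕ) : ℝ) := by positivity
  have h2 := Nat.floor_le (mul_nonneg hq0.le (Int.fract_nonneg ((k : ℝ) * θ)))
  have h3 := Nat.lt_floor_add_one (((q + 1 : ℕ) : ℝ) * Int.fract ((k : ℝ) * θ))
  have h4 := Nat.floor_le (mul_nonneg hq0.le (Int.fract_nonneg ((t : ℝ) * θ)))
  have h5 := Nat.lt_floor_add_one (((q + 1 : ℕ) : ℝ) * Int.fract ((t : ℝ) * θ))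
  rw [h1] at h2 h3
  have h6 : |Int.fract ((k : ℝ) * θ) - Int.fract ((t : ℝ) * θ)| < 1 / ((q + 1 : ℕ) : ℝ) := by
    rw [lt_div_iff₀ hq0, ← abs_of_pos hq0, ← abs_mul, abs_lt]
    constructor <;> nlinarith
  have h7 : ((k - t : ℕ) : ℝ) * θ - ((⌊(k : ℝ) * θ⌋ - ⌊(t : ℝ) * θ⌋ : ℤ) : ℝ) =
      Int.fract ((k : ℝ) * θ) - Int.fract ((t : ℝ) * θ) := by
    rw [Nat.cast_sub htk, Int.cast_sub]
    unfold Int.fract
    ring
  calc |((k - t : ℕ) : ℝ) * θ - round (((k - t : ℕ) : ℝ) * θ)|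
      ≤ |((k - t : ℕ) : ℝ) * θ - ((⌊(k : ℝ) * θ⌋ - ⌊(t : ℝ) * θ⌋ : ℤ) : ℝ)| := round_le _ _
    _ < 1 / ((q + 1 : ℕ) : ℝ) := by rw [h7]; exact h6
    _ < ρ := hq

theorem synd (T : Finset ℝ) (ρ : ℝ) (hρ : 0 < ρ) : ∃ D : ℕ, 0 < D ∧ ∀ u : ℕ, ∃ k : ℕ,
    u < k ∧ k ≤ u + D ∧ ∀ θ ∈ T, |(k : ℝ) * θ - round ((k : ℝ) * θ)| < ρ := by
  classical
  obtain ⟨q, hq⟩ := exists_nat_one_div_lt hρ
  have hq' : 1 / ((q + 1 : ℕ) : ℝ) < ρ := by
    push_cast
    exact hq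
  let rep : (T → Fin (q + 1)) → ℕ := fun c => if h : ∃ t, cell T q t = c then h.choose else 0
  have hrep : ∀ k, cell T q (rep (cell T q k)) = cell T q k := by
    intro k
    have h : ∃ t, cell T q t = cell T q k := ⟨k, rfl⟩
    show cell T q (if h : ∃ t, cell T q t = cell T q k then h.choose else 0) = cell T q k
    rw [dif_pos h]
    exact h.choose_spec
  set M : ℕ := Finset.univ.sup rep with hM
  have hMle : ∀ c, rep c ≤ M := fun c => Finset.le_sup (Finset.mem_univ c)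
  refine ⟨M + 1, Nat.succ_pos M, fun u => ?_⟩
  have h1 := hMle (cell T q (u + M + 1))
  have h2 := hrep (u + M + 1)
  refine ⟨u + M + 1 - rep (cell T q (u + M + 1)), by omega, by omega, fun θ hθ => ?_⟩
  exact cell_close hq' (by omega) h2.symm θ hθ

theorem dens : Pool.Agent.W27.FB.S_dens := by
  classical
  intro T ρ hρ
  obtain ⟨D, hD, hsyn⟩ := synd T ρ hρ
  have hDr : (0 : ℝ) < D := by exact_mod_cast hD
  refine ⟨1 / (2 * D), by positivity, D, fun L hL u => ?_⟩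
  choose f hf1 hf2 hf3 using fun i : ℕ => hsyn (u + i * D)
  have hstrict : StrictMono f := by
    refine strictMono_nat_of_lt_succ fun i => ?_
    have h1 := hf2 i
    have h2 := hf1 (i + 1)
    have h3 : u + (i + 1) * D = u + i * D + D := by ring
    omega
  set S : Set ℕ := {k : ℕ | u < k ∧ k ≤ u + L ∧ ∀ θ ∈ T, |k * θ - round (k * θ)| < ρ} with hS
  have hfin : S.Finite := (Set.finite_Ioc u (u + L)).subset fun k hk => ⟨hk.1, hk.2.1⟩
  have hsub : (((Finset.range (L / D)).image f : Finset ℕ) : Set ℕ) ⊆ S := by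
    intro k hk
    rw [Finset.mem_coe, Finset.mem_image] at hk
    obtain ⟨i, hi, rfl⟩ := hk
    rw [Finset.mem_range] at hi
    have h1 := hf1 i
    have h2 := hf2 i
    have h4 : (i + 1) * D ≤ L := by
      calc (i + 1) * D ≤ L / D * D := Nat.mul_le_mul_right D hi
        _ ≤ L := Nat.div_mul_le_self L D
    have h5 : u + (i + 1) * D = u + i * D + D := by ring
    have h6 : 0 ≤ i * D := Nat.zero_le _
    exact ⟨by omega, by omega, hf3 i⟩
  have hcard : L / D ≤ S.ncard := by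
    have h1 := Set.ncard_le_ncard hsub hfin
    rw [Set.ncard_coe_finset, Finset.card_image_of_injective _ hstrict.injective,
      Finset.card_range] at h1
    exact h1
  have h1 : (L : ℝ) ≤ 2 * D * ((L / D : ℕ) : ℝ) := by
    have h2 : 1 ≤ L / D := (Nat.one_le_div_iff hD).2 hL
    have h3 : L < D * (L / D + 1) := by
      have h4 := Nat.div_add_mod L D
      have h5 := Nat.mod_lt L hD
      have h6 : D * (L / D + 1) = D * (L / D) + D := by ring
      omega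
    have h4 : L ≤ 2 * D * (L / D) := by nlinarith
    exact_mod_cast h4
  have h2 : ((L / D : ℕ) : ℝ) ≤ (S.ncard : ℝ) := by exact_mod_cast hcard
  calc 1 / (2 * (D : ℝ)) * L ≤ 1 / (2 * (D : ℝ)) * (2 * D * ((L / D : ℕ) : ℝ)) :=
        mul_le_mul_of_nonneg_left h1 (by positivity)
    _ = ((L / D : ℕ) : ℝ) := by field_simp
    _ ≤ (S.ncard : ℝ) := h2

end Pool.Agent.W253.FN
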